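import Pool.Agent.Q17.DM.Stm

/-!
# Project DM, job CDC: the condition on the base group is enough for stabilisers of chains
-/

set_option autoImplicit false

open scoped Classical

noncomputable section

namespace Pool.Agent.Q251.DM

open Pool.Agent.H254R3.IN hiding NN
open Pool.Agent.Y63.KR Pool.Agent.Q17.WR Pool.Agent.Q17.DC Pool.Agent.Q17.AM Pool.Agent.Q17.DM

section transport

variable {L K : Type} [Group L] [Group K]

theorem irr_comp (e : L ≃* K) {χ : K → ℂ} (h : IsIrr χ) : IsIrr (fun x => χ (e x)) := by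
  obtain ⟨V, _, _, _, ρ, hr, rfl⟩ := h
  let ρ' : Representation ℂ L V := ρ.comp e.toMonoidHom
  refine ⟨V, _, _, inferInstance, ρ', ?_, rfl⟩
  let f : Subrepresentation ρ' ≃o Subrepresentation ρ :=
    { toFun := fun S => ⟨S.toSubmodule, fun g v hv => by
        have h1 : ρ (e (e.symm g)) v ∈ S.toSubmodule := S.apply_mem_toSubmodule (e.symm g) hv
        rwa [MulEquiv.apply_symm_apply] at h1⟩
      invFun := fun S => ⟨S.toSubmodule, fun g v hv => S.apply_mem_toSubmodule (e g) hv⟩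
      left_inv := fun _ => rfl
      right_inv := fun _ => rfl
      map_rel_iff' := Iff.rfl }
  exact f.isSimpleOrder_iff.mpr hr

theorem conj_iff (e : L ≃* K) {x y : L} : IsConj x y ↔ IsConj (e x) (e y) := by
  constructor
  · intro h
    exact e.toMonoidHom.map_isConj h
  · intro h
    have h1 := e.symm.toMonoidHom.map_isConj h
    simpa using h1

theorem omega_comp (e : L ≃* K) (χ : K → ℂ) (x : L) :
    omega (fun x => χ (e x)) x = omega χ (e x) := by
  unfold omega
  have h1 : Nat.card {y : L // IsConj x y} = Nat.card {y : K // IsConj (e x) y} :=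
    Nat.card_congr (e.toEquiv.subtypeEquiv (fun y => conj_iff e))
  rw [h1]
  simp only [map_one]

end transport

theorem fs_congr {α : Type} {P Q : α → Prop} (h : P = Q) (f : α → ℂ) :
    ∑ᶠ y : {y // P y}, f y = ∑ᶠ y : {y // Q y}, f y := by
  subst h
  rfl

/-- `S_EXC` for the whole group -/
theorem exc (hE : S_EXC) {Γ : Type} [Group Γ] [Fintype Γ] {p : ℕ} [Fact p.Prime]
    {O : ValuationSubring ℂ} (hp : (p : ℂ) ∈ O.nonunits) {σ : Set (Subgroup Γ)} (hσ : Ch p ⊤ ⊥ σ)
    {ψ : chainStabilizer σ → ℂ} (hψ : IsIrr ψ) : ∃ χ : Γ → ℂ, IsIrr χ ∧ ∀ x : Γ,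
      omega χ x - ∑ᶠ y : {y : chainStabilizer σ // IsConj x (y : Γ)}, ψ y / ψ 1 ∈ O.nonunits := by
  have key : ∀ L : Subgroup Γ, Ns ⊤ σ = L → ∀ θ : L → ℂ, IsIrr θ →
      ∃ B : Set ((⊤ : Subgroup Γ) → ℂ), IsBlock O B ∧ ∀ χ ∈ B, ∀ x : (⊤ : Subgroup Γ),
        omega χ x - indc ⊤ L θ (x : Γ) ∈ O.nonunits := by
    rintro L rfl θ hθ
    exact hE Γ p O hp ⊤ ⊥ σ hσ θ hθ
  obtain ⟨B, hB, hB2⟩ := key (chainStabilizer σ) (top_inf_eq _) ψ hψ
  obtain ⟨χ', hχ'⟩ := hB.nonempty
  have hirr := hB.irr χ' hχ'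
  refine ⟨fun x => χ' (Subgroup.topEquiv.symm x), irr_comp _ hirr, fun x => ?_⟩
  rw [omega_comp]
  have h := hB2 χ' hχ' (Subgroup.topEquiv.symm x)
  have h2 : indc ⊤ (chainStabilizer σ) ψ ((Subgroup.topEquiv.symm x : (⊤ : Subgroup Γ)) : Γ) =
      ∑ᶠ y : {y : chainStabilizer σ // IsConj x (y : Γ)}, ψ y / ψ 1 := by
    unfold indc
    refine fs_congr (funext fun y => propext ?_) (fun y => ψ y / ψ 1)
    rw [isConj_iff]
    constructor
    · rintro ⟨g, _, hg⟩
      exact ⟨g, hg⟩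
    · rintro ⟨g, hg⟩
      exact ⟨g, Subgroup.mem_top g, hg⟩
  rw [h2] at h
  exact h

theorem mem_LX (hBLK : S_BLK) {p r : ℕ} [Fact p.Prime] [Fact r.Prime] (hpr : p ≠ r) {G : Type}
    [Group G] [Fintype G] [Fintype (Wc G r)] {O : ValuationSubring ℂ} (hp : (p : ℂ) ∈ O.nonunits)
    {B : Set (G → ℂ)} (hB : IsBlock O B) (hpos : Pos O B) {χ' χ : Wc G r → ℂ} (hχ' : IsIrr χ')
    (hχ : χ ∈ LX (r := r) B)
    (h : ∀ x : Wc G r, x.right = 1 → omega χ' x - omega χ x ∈ O.nonunits) :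
    χ' ∈ LX (r := r) B := by
  obtain ⟨hblk, hcoef, -⟩ := hBLK G p r hpr O hp B hB hpos
  have hirr := hblk.irr
  have hcl := blockCoeff_cl hirr
  have hmem := blockCoeff_mem hblk
  have e1 := (red_Om hχ' hcl hmem).2
  have e2 := (red_Om (hirr χ hχ) hcl hmem).2
  have e3 : ∑ K : ConjClasses (Wc G r), red O (blockCoeff (LX (r := r) B) (rep K)) *
      red O (omega χ' (rep K)) = ∑ K : ConjClasses (Wc G r),
      red O (blockCoeff (LX (r := r) B) (rep K)) * red O (omega χ (rep K)) := by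
    refine Finset.sum_congr rfl fun K _ => ?_
    by_cases hK : (rep K).right = 1
    · rw [(red_eq_iff (hχ'.omega_mem O _) ((hirr χ hχ).omega_mem O _)).mpr (h _ hK)]
    · rw [hcoef, if_neg hK, red_zero, zero_mul, zero_mul]
  rw [e3, ← e2, Om_blockCoeff hirr hχ', Om_blockCoeff hirr (hirr χ hχ), if_pos hχ, red_one] at e1
  by_contra hn
  rw [if_neg hn, red_zero] at e1
  exact zero_ne_one e1

theorem t_CDC : S_EXC → S_BLK → S_CDC := by
  intro hE hBLK p r _ _ hpr G _ _ O hp B hB hpos σ hσ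
  have hF : Fintype (Wc G r) := Fintype.ofEquiv _ SemidirectProduct.equivProd.symm
  have hblk := (hBLK G p r hpr O hp B hB hpos).1
  have key : ∀ (d : ℕ) (ψ : chainStabilizer σ → ℂ),
      Cd p O (LX (r := r) B) {x | x.right = 1} d (chainStabilizer σ) ψ ↔
      Cd p O (LX (r := r) B) Set.univ d (chainStabilizer σ) ψ := by
    intro d ψ
    constructor
    · intro h
      refine ⟨h.irr, ?_, h.defect⟩
      obtain ⟨χ', h1, h2⟩ := exc hE hp hσ h.irr
      obtain ⟨χ₀, h0⟩ := hblk.nonempty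
      have h3 : χ' ∈ LX (r := r) B := mem_LX hBLK hpr hp hB hpos h1 h0 (fun x hx => by
        have a := h2 x
        have b := h.ind χ₀ h0 x hx
        have c := sub_mem a b
        rwa [sub_sub_sub_cancel_right] at c)
      intro χ hχ x _
      have a := h2 x
      have b : omega χ x - omega χ' x ∈ O.nonunits :=
        (red_eq_iff ((hblk.irr χ hχ).omega_mem O _) (h1.omega_mem O _)).mp (hblk.red_eq hχ h3 x)
      have c := add_mem b a
      rwa [sub_add_sub_cancel] at c
    · intro h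
      exact ⟨h.irr, fun χ hχ x _ => h.ind χ hχ x (Set.mem_univ _), h.defect⟩
  have h2 : ∀ d, cd p O (LX (r := r) B) {x | x.right = 1} d (chainStabilizer σ) =
      cd p O (LX (r := r) B) Set.univ d (chainStabilizer σ) := by
    intro d
    unfold cd
    have h3 : Cd p O (LX (r := r) B) {x | x.right = 1} d (chainStabilizer σ) =
      Cd p O (LX (r := r) B) Set.univ d (chainStabilizer σ) := funext fun ψ => propext (key d ψ)
    rw [h3]
  unfold pol
  simp only [h2]

end Pool.Agent.Q251.DM
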